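import Pool.Agent.Helper80.SI.StN

set_option autoImplicit false

/-!
# Project SI, module N8: homogeneous fixed elements are rotation invariant
-/

namespace Pool.Agent.Helper81.SI

open Pool.Agent.Helper99.SI Pool.Agent.Helper80.SI Filter Topology

section

variable {n : ℕ} {L : Type} [Ring L] [Algebra ℂ L] [StarRing L] [StarModule ℂ L]

/-- span of the words of length l -/
def Sl (D : Sys n L) (l : ℕ) : Submodule ℂ L :=
  Submodule.span ℂ {y | ∃ μ : W n, μ.length = l ∧ y = D.w μ}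

lemma w_nil (D : Sys n L) : D.w [] = 1 := by simp [Sys.w, wd]

lemma w_cons (D : Sys n L) (j : Fin n) (μ : W n) : D.w (j :: μ) = D.x j * D.w μ := by
  simp [Sys.w, wd]

lemma w_snoc (D : Sys n L) (j : Fin n) (μ : W n) : D.w (μ ++ [j]) = D.w μ * D.x j := by
  simp [Sys.w, wd]

lemma star_mul_mem (D : Sys n L) (h : StA1) (κ μ : W n) (l : ℕ)
    (hl : μ.length = κ.length + l) : star (D.w κ) * D.w μ ∈ Sl D l := by
  obtain ⟨_, h2, _, h4, _⟩ := h n L D
  by_cases h1 : κ <+: μ
  · obtain ⟨ν, rfl⟩ := h1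
    rw [h2]
    refine Submodule.subset_span ⟨ν, ?_, rfl⟩
    rw [List.length_append] at hl
    omega
  · have h3 : ¬ μ <+: κ := by
      intro h5
      have h6 := h5.length_le
      have h7 : μ = κ := h5.eq_of_length (by omega)
      exact h1 (h7 ▸ ⟨[], List.append_nil _⟩)
    rw [h4 κ μ h1 h3]
    exact Submodule.zero_mem _

lemma g_w (D : Sys n L) (h3 : StA2) (K : W n) : D.g.p (K.length : ℤ) (D.w K) = D.w K := by
  have h := h3 n L D (K.length : ℤ) K []
  rw [w_nil, star_one, mul_one, if_pos (by simp)] at h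
  exact h

variable [Nontrivial L]

lemma cf_len (D : Sys n L) (h6 : StA5) (y : L) (hS : y ∈ D.S) (l : ℤ) (hy : D.g.p l y = y)
    (μ : W n) (hμ : D.cf y μ ≠ 0) : (μ.length : ℤ) = l := by
  have h := ((h6 n L D).2.2.2.1 _ hS l).2 μ
  rw [hy] at h
  by_contra hne
  rw [if_neg hne] at h
  exact hμ h

lemma fix_mem (D : Sys n L) (h1 : StA0) (h2 : StA1) (h3 : StA2) (h4 : StA3) (h5 : StA4)
    (h6 : StA5) (h7 : StA8) (y : L) (l : ℕ) (hy : D.g.p (l : ℤ) y = y)
    (hP : D.Phi 1 y = y) : y ∈ Sl D l := by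
  obtain ⟨l0, c, hl0⟩ := h5 n L D y
  have hk : ∀ k : ℕ, (D.Phi 1 ^ k) y = y := by
    intro k
    induction k with
    | zero => rfl
    | succ k ih => rw [pow_succ, Module.End.mul_apply, hP, ih]
  have h8 := (h7 n L D 1 l0 y one_ne_zero).2
  rw [hk l0] at h8
  rw [h8]
  refine Submodule.sum_mem _ fun κ _ => ?_
  rw [(h1 L D.b).2.2.2.2.1, mul_assoc]
  have hK : (List.ofFn κ).length = l0 := List.length_ofFn
  generalize List.ofFn κ = K at hK
  obtain ⟨hS, _⟩ := hl0 K hK.ge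
  have hdeg : D.g.p ((l : ℤ) + K.length) (y * D.w K) = y * D.w K := by
    have h := D.g.mul l K.length y (D.w K)
    rwa [hy, g_w D h3] at h
  have he := (h4 n L D).2.2.1 _ hS
  have he2 : star (D.w K) * (y * D.w K) = star (D.w K) * D.emb (D.cf (y * D.w K)) := by rw [he]
  rw [he2, Sys.emb, Finsupp.linearCombination_apply, Finsupp.sum, Finset.mul_sum]
  refine Submodule.sum_mem _ fun μ hμ => ?_
  rw [mul_smul_comm]
  refine Submodule.smul_mem _ _ (star_mul_mem D h2 K μ l ?_)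
  have h9 := cf_len D h6 _ hS _ hdeg μ (Finsupp.mem_support_iff.1 hμ)
  omega

omit [Nontrivial L] in
lemma Sl_le (D : Sys n L) (l : ℕ) : Sl D l ≤ D.S := by
  refine Submodule.span_mono ?_
  rintro _ ⟨μ, _, rfl⟩
  exact ⟨μ, rfl⟩

omit [Nontrivial L] in
lemma phi_apply (D : Sys n L) (h1 : StA0) (h7 : StA8) (y : L) :
    D.Phi 1 y = ∑ i, star (D.x i) * y * D.x i := by
  rw [(h7 n L D 1 0 0 one_ne_zero).1]
  refine Finset.sum_congr rfl fun i _ => ?_
  rw [(h1 L D.b).2.2.2.2.1]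

omit [Nontrivial L] in
lemma phi_w (D : Sys n L) (h1 : StA0) (h7 : StA8) (μ : W n) (hμ : μ ≠ []) :
    D.Phi 1 (D.w μ) = D.w (μ.rotate 1) := by
  obtain ⟨j, μ', rfl⟩ := List.exists_cons_of_ne_nil hμ
  rw [phi_apply D h1 h7, List.rotate_cons_succ, List.rotate_zero, w_snoc]
  have h : ∀ i, star (D.x i) * D.w (j :: μ') * D.x i
      = if i = j then D.w μ' * D.x i else 0 := by
    intro i
    rw [w_cons, ← mul_assoc (star (D.x i)), D.orth]
    split_ifs <;> simp
  rw [Finset.sum_congr rfl fun i _ => h i, Finset.sum_ite_eq']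
  simp

lemma pos_case (D : Sys n L) (h1 : StA0) (h2 : StA1) (h3 : StA2) (h4 : StA3) (h5 : StA4)
    (h6 : StA5) (h7 : StA8) (y : L) (l : ℕ) (hl : 0 < l) (hy : D.g.p (l : ℤ) y = y)
    (hP : D.Phi 1 y = y) :
    y ∈ D.S ∧ RotInv (D.cf y) ∧ ∀ ν, D.cf y ν ≠ 0 → (ν.length : ℤ) = l := by
  have hS : y ∈ D.S := Sl_le D l (fix_mem D h1 h2 h3 h4 h5 h6 h7 y l hy hP)
  have hlen := cf_len D h6 y hS l hy
  refine ⟨hS, ?_, hlen⟩
  have he := (h4 n L D).2.2.1 _ hS
  have hinj : Function.Injective fun μ : W n => μ.rotate 1 := List.rotate_injective 1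
  have hkey : D.emb (D.cf y) = D.emb ((D.cf y).mapDomain fun μ => μ.rotate 1) := by
    have e1 : D.Phi 1 (D.emb (D.cf y)) = D.emb (D.cf y) := by rw [he, hP]
    rw [← e1]
    simp only [Sys.emb]
    rw [Finsupp.linearCombination_mapDomain, Finsupp.linearCombination_apply,
      Finsupp.linearCombination_apply, map_finsuppSum]
    refine Finsupp.sum_congr fun μ hμ => ?_
    rw [map_smul, phi_w D h1 h7 μ ?_]
    · rfl
    · rintro rfl
      have h9 := hlen _ (Finsupp.mem_support_iff.1 hμ)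
      simp at h9
      omega
  have hc : D.cf y = (D.cf y).mapDomain fun μ => μ.rotate 1 := by
    have h9 := congrArg D.cf hkey
    rwa [(h4 n L D).2.1, (h4 n L D).2.1] at h9
  have h10 : ∀ μ : W n, D.cf y (μ.rotate 1) = D.cf y μ := by
    intro μ
    conv_lhs => rw [hc]
    exact Finsupp.mapDomain_apply hinj _ _
  intro μ i
  induction i with
  | zero => rw [List.rotate_zero]
  | succ i ih => rw [← List.rotate_rotate, h10, ih]

end

theorem hN8 (h1 : StA0) (h2 : StA1) (h3 : StA2) (h4 : StA3) (h5 : StA4) (h6 : StA5)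
    (h7 : StA8) : StN8 := by
  intro n L _ _ _ _ _ D y l hy hP
  refine ⟨?_, ?_, ?_⟩
  · rintro rfl hn
    have hm := fix_mem D h1 h2 h3 h4 h5 h6 h7 y 0 (by exact_mod_cast hy) hP
    have h8 : Sl D 0 ≤ Submodule.span ℂ {(1 : L)} := by
      refine Submodule.span_mono ?_
      rintro _ ⟨μ, hμ, rfl⟩
      rw [List.length_eq_zero_iff.1 hμ, w_nil]
      rfl
    obtain ⟨a, rfl⟩ := Submodule.mem_span_singleton.1 (h8 hm)
    rw [phi_apply D h1 h7] at hP
    have h9 : ∀ i, star (D.x i) * (a • (1 : L)) * D.x i = a • 1 := by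
      intro i
      rw [mul_smul_comm, mul_one, smul_mul_assoc, D.orth, if_pos rfl]
    rw [Finset.sum_congr rfl fun i _ => h9 i, Finset.sum_const, Finset.card_univ,
      Fintype.card_fin, ← Nat.cast_smul_eq_nsmul ℂ, smul_smul] at hP
    have h10 : ((n : ℂ) * a - a) • (1 : L) = 0 := by rw [sub_smul, hP, sub_self]
    rcases smul_eq_zero.1 h10 with h11 | h11
    · have h12 : ((n : ℂ) - 1) * a = 0 := by rw [← h11]; ring
      rcases mul_eq_zero.1 h12 with h13 | h13
      · exfalso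
        have h14 : (n : ℂ) = 1 := sub_eq_zero.1 h13
        have h15 : n = 1 := by exact_mod_cast h14
        omega
      · rw [h13, zero_smul]
    · exact absurd h11 one_ne_zero
  · intro hl
    obtain ⟨m, rfl⟩ := Int.eq_ofNat_of_zero_le hl.le
    exact pos_case D h1 h2 h3 h4 h5 h6 h7 y m (by omega) hy hP
  · intro hl
    obtain ⟨m, hm⟩ := Int.eq_ofNat_of_zero_le (show 0 ≤ -l by omega)
    rw [hm]
    refine pos_case D h1 h2 h3 h4 h5 h6 h7 (star y) m (by omega) ?_ ?_
    · rw [← hm, D.g.st, hy]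
    · rw [phi_apply D h1 h7]
      rw [phi_apply D h1 h7] at hP
      conv_rhs => rw [← hP]
      rw [star_sum]
      refine Finset.sum_congr rfl fun i _ => ?_
      rw [star_mul, star_mul, star_star, mul_assoc]

end Pool.Agent.Helper81.SI
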